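import Pool.Agent.H.MP_9acee6_nt.B

namespace Pool.Agent.Results.MP_9acee6_nt.Val
open PowerSeries

/-- the coefficient of `x ^ n` in `(1 - x) ^ (-m)` times the product of the
`(1 - x ^ k ^ i) ^ (-m (k - 1))` -/
noncomputable def S (k m n : ℕ) : ℤ :=
  coeff n ((PowerSeries.mk fun _ : ℕ => (1 : ℤ)) ^ m * ∏ i ∈ Finset.range (n + 1),
    (PowerSeries.mk fun j : ℕ => if k ^ i ∣ j then (1 : ℤ) else 0) ^ (m * (k - 1)))

/-- `V_{p,a,m}` -/
noncomputable def V (p a m n : ℕ) : ℕ := padicValInt p (S (p ^ a) m n)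

/-- `v` is bounded -/
def Bdd (v : ℕ → ℕ) : Prop := ∃ B, ∀ n, v n ≤ B

/-- `v` is `p`-automatic: its `p`-kernel is finite -/
def Auto (p : ℕ) (v : ℕ → ℕ) : Prop :=
  {e : ℕ → ℕ | ∃ i j : ℕ, j < p ^ i ∧ e = fun n => v (p ^ i * n + j)}.Finite

theorem result :
    (∀ p a m : ℕ, p.Prime → 2 ≤ a → 0 < m →
      (a ≤ padicValNat p m ∨ (3 ≤ p ∧ a ≤ padicValNat p m + 1) ∨
        (5 ≤ p ∧ a ≤ padicValNat p m + 2) ∨ (3 ≤ p ∧ a = 2)) →
      (∀ n, 1 ≤ n → V p a m n = padicValNat p m + a - padicValNat p n % a) ∧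
        Bdd (V p a m) ∧ Auto p (V p a m)) ∧
    ∀ m : ℕ, 0 < m → (Bdd (V 2 2 m) ↔ m % 8 ≠ 6) ∧ (Auto 2 (V 2 2 m) ↔ m % 8 ≠ 6) := by
  refine ⟨fun p a m hp ha hm h => ?_, fun m hm => ?_⟩
  swap
  · have e : (PowerSeries.mk fun _ : ℕ => (1 : ℤ)) = Lib.helper11.Mahler.geo ℤ 1 := by
      ext j; simp [Lib.helper11.Mahler.geo]
    have : V 2 2 m = fun n => padicValInt 2 (H.MP_b3d406_nt.S m n) := by
      funext n
      simp only [V, S, e]
      rfl
    rw [this]
    exact H.MP_9acee6_nt.Two.two m hm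
  have := Fact.mk hp
  have e : (PowerSeries.mk fun _ : ℕ => (1 : ℤ)) = H.MP_9acee6_nt.geo ℤ 1 := by
    ext j; simp [H.MP_9acee6_nt.geo]
  have f : ∀ n, 1 ≤ n → V p a m n = padicValNat p m + a - padicValNat p n % a := fun n hn => by
    simp only [V, S, e]
    by_cases c : a ≤ padicValNat p m ∨
        (3 ≤ p ∧ a ≤ padicValNat p m + 1 + padicValNat p n % a) ∨
        (5 ≤ p ∧ a ≤ padicValNat p m + 2)
    · exact H.MP_9acee6_nt.main p a m n ha hm.ne' (by omega) c
    obtain rfl : a = 2 := by omega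
    have h4 : p ≠ 4 := by rintro rfl; exact absurd hp (by decide)
    have h0 : padicValNat p m = 0 := by omega
    have h1 : padicValNat p n % 2 = 0 := by omega
    rw [h0, h1]
    exact H.MP_9acee6_nt.main3 p (by omega) m n (fun d => by
      have := (padicValNat_dvd_iff_le (p := p) (n := 1) hm.ne').1 (by simpa using d)
      omega) (by omega) h1
  refine ⟨f, ⟨V p a m 0 + (padicValNat p m + a), fun n => ?_⟩, ?_⟩
  · rcases Nat.eq_zero_or_pos n with rfl | hn
    · omega
    · rw [f n hn]; omega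
  refine (((Set.finite_lt_nat a).image fun b => fun _ : ℕ => padicValNat p m + a - b).union
    ((Set.finite_lt_nat a).image fun b => fun n : ℕ => if n = 0 then V p a m 0 else
      padicValNat p m + a - (b + padicValNat p n) % a)).subset ?_
  rintro _ ⟨i, j, hj, rfl⟩
  rcases Nat.eq_zero_or_pos j with rfl | hj0
  · refine .inr ⟨i % a, Nat.mod_lt _ (by omega), funext fun n => ?_⟩
    have hp0 := pow_pos hp.pos i
    dsimp only
    split_ifs with hn
    · simp [hn]
    · rw [add_zero, f _ (Nat.mul_pos hp0 (by omega)), padicValNat.mul hp0.ne' hn,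
        padicValNat.prime_pow, Nat.mod_add_mod]
  · refine .inl ⟨padicValNat p j % a, Nat.mod_lt _ (by omega), funext fun n => ?_⟩
    have hv : padicValNat p j < i := by
      by_contra hc
      have := Nat.le_of_dvd hj0 ((padicValNat_dvd_iff_le (p := p) hj0.ne').2 (not_lt.1 hc))
      omega
    have : padicValNat p (p ^ i * n + j) = padicValNat p j := by
      refine le_antisymm ?_ ((padicValNat_dvd_iff_le (by omega)).1
        (dvd_add ((pow_dvd_pow _ hv.le).mul_right _) pow_padicValNat_dvd))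
      by_contra hc
      have d := (padicValNat_dvd_iff_le (p := p) (a := p ^ i * n + j)
        (n := padicValNat p j + 1) (by omega)).2 (by omega)
      exact pow_succ_padicValNat_not_dvd hj0.ne'
        ((Nat.dvd_add_right ((pow_dvd_pow _ hv).mul_right _)).1 d)
    rw [f _ (by omega), this]

end Pool.Agent.Results.MP_9acee6_nt.Val
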